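import Pool.Agent.J4H40.Kq

/-!
# The Möbius function and shifts: arbitrary weights, the shifts in ALL residue classes to moduli up to `N ^ (1 - ρ)`

For every `ρ, ε > 0` and `A, K` there is a `k` such that for every `B` and every large `N` there is a set `D` of at most
`log ^ k N` integers larger than `log ^ B N` with the following property. Let `q ≤ N ^ (1 - ρ)` be an integer which is
not divisible by an element of `D`, let `a` be an ARBITRARY integer (not necessarily coprime to `q`), and let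
`F : ℕ → ℂ` be an ARBITRARY function with `|F(n)| ≤ log ^ K N` for `n ≤ N` (for example `F = Λ`, a product
`F(n) = Λ(n) Λ(n + h₁) ... Λ(n + h_r) μ(n + h'₁) ... μ(n + h'_s)` with arbitrary shifts, or the indicator function of an
arbitrary set). Then all `|h| ≤ N` with `h ≡ a (mod q)`, with at most `N / (q log ^ A N)` exceptions, satisfy

`|∑ y₁ < n ≤ y₂, F(n) μ(n + h)| ≤ ε ∑ y₁ < n ≤ y₂, |F(n)| + N / log ^ A N`

for ALL `y₁ ≤ y₂ ≤ N` (with `y₁ + h ≥ 0`, so that the values of `μ` are defined).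

So a class to a modulus `q` with only about `N ^ ρ` elements up to `N` contains almost only shifts for which the
correlation with the von Mangoldt function is `o(N)`; the bound is relative to `∑ |F(n)|` and nontrivial for all weights
with `∑ |F(n)| ≥ N / log ^ (A / 2) N`, for example for the prime pairs or the prime `r`-tuples, if there are as many
of them as conjectured. The set `D` is the same for all `q`, `a` and `F`.

Nothing is used besides Mathlib in the statement. The proof uses the mean square estimates of the starting files for the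
ternary type problems in residue classes (`Pool.Agent.R460`, `Pool.Agent.Y883`, `Pool.Agent.Y812`), the sieve model of
`Pool.Agent.H373R2.T7` and the Siegel–Walfisz theorem for the Möbius function (`Pool.Agent.H705R2.MSW`).
-/

namespace Pool.Agent.Results.MP_0bfb7f_nt.ArbitraryWeightsAllClasses

open Finset
open Pool.Agent.J4H40 (Few6 Win corrMu)
open Pool.Agent.H373R2.T7 (muR)

open Classical in
theorem result (ρ ε : ℝ) (hρ : 0 < ρ) (hε : 0 < ε) (A K : ℕ) :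
    ∃ k : ℕ, ∀ B : ℕ, ∃ N₀ : ℕ, ∀ N : ℕ, N₀ ≤ N →
      ∃ D : Finset ℕ, (D.card : ℝ) ≤ Real.log N ^ k ∧ (∀ d ∈ D, Real.log N ^ B < (d : ℝ)) ∧
      ∀ q : ℕ, 1 ≤ q → (q : ℝ) ≤ (N : ℝ) ^ (1 - ρ) → (∀ d ∈ D, ¬ d ∣ q) → ∀ a : ℤ,
      ∀ F : ℕ → ℂ, (∀ n ∈ Icc 1 N, ‖F n‖ ≤ Real.log N ^ K) →
        (({h ∈ Icc (-(N : ℤ)) N | h ≡ a [ZMOD q] ∧ ¬ ∀ y₁ y₂ : ℕ, y₁ ≤ y₂ → y₂ ≤ N → 0 ≤ (y₁ : ℤ) + h →
            ‖∑ n ∈ Ioc y₁ y₂, F n * ((ArithmeticFunction.moebius ((n : ℤ) + h).toNat : ℤ) : ℂ)‖ ≤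
              ε * ∑ n ∈ Ioc y₁ y₂, ‖F n‖ + N / Real.log N ^ A}.card : ℕ) : ℝ) ≤
          N / (q * Real.log N ^ A) := by
  obtain ⟨k, hk⟩ := corrMu (ρ := min ρ 1) (ε := min ε 1) (lt_min hρ one_pos) (min_le_right _ _)
    (lt_min hε one_pos) (min_le_right _ _) (A + K)
  refine ⟨k, fun B => ?_⟩
  obtain ⟨N₁, h1⟩ := hk B
  obtain ⟨N₂, h2⟩ := Pool.Agent.R462.GS.evL 1
  refine ⟨N₁ + N₂ + 1, fun N hN => ?_⟩
  obtain ⟨D, hD1, hD2, hD⟩ := h1 N (by omega)
  have hL := h2 N (by omega)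
  have hL0 : 0 < Real.log N := by linarith
  have hN0 : (0 : ℝ) < N := by exact_mod_cast (by omega : 0 < N)
  have hNr : (1 : ℝ) ≤ N := by exact_mod_cast (by omega : 1 ≤ N)
  refine ⟨D, hD1, hD2, fun q hq hqN hqD a F hF => ?_⟩
  have hq0 : (0 : ℝ) < q := by exact_mod_cast hq
  have hqN' : (q : ℝ) ≤ (N : ℝ) ^ (1 - min ρ 1) :=
    hqN.trans (Real.rpow_le_rpow_of_exponent_le hNr (by linarith [min_le_left ρ 1]))
  obtain ⟨t, ht⟩ : ∃ t : ℝ, t = Real.log N ^ K := ⟨_, rfl⟩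
  have ht1 : 1 ≤ t := by rw [ht]; exact one_le_pow₀ hL
  have ht0 : 0 < t := by linarith
  have hF' : ∀ n ∈ Icc 1 N, ‖F n * ((t⁻¹ : ℝ) : ℂ)‖ ≤ Real.log N := by
    intro n hn
    rw [norm_mul, Complex.norm_real, Real.norm_eq_abs, abs_of_pos (by positivity), ← div_eq_mul_inv]
    have h3 := hF n hn
    rw [← ht] at h3
    exact ((div_le_one ht0).2 h3).trans hL
  have hmain := hD (fun n => F n * ((t⁻¹ : ℝ) : ℂ)) hF' q hq hqN' hqD a
  unfold Few6 at hmain
  have hfin : (N : ℝ) / (q * Real.log N ^ (A + K)) ≤ N / (q * Real.log N ^ A) := by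
    apply div_le_div_of_nonneg_left hN0.le (by positivity)
    apply mul_le_mul_of_nonneg_left _ hq0.le
    exact pow_le_pow_right₀ hL (by omega)
  refine le_trans ?_ (hmain.trans hfin)
  apply Nat.cast_le.2
  apply card_le_card
  intro h hh
  rw [mem_filter, mem_Icc] at hh ⊢
  obtain ⟨h3, h4, h5⟩ := hh
  refine ⟨h3, h4, fun h6 => h5 ?_⟩
  intro y₁ y₂ w1 w2 w3
  have h7 := h6 y₁ y₂ ⟨w1, w2, by omega⟩
  have e1 : ∑ n ∈ Ioc y₁ y₂, F n * ((ArithmeticFunction.moebius ((n : ℤ) + h).toNat : ℤ) : ℂ) =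
      ((t : ℝ) : ℂ) * ∑ m ∈ Ioc y₁ y₂, (F m * ((t⁻¹ : ℝ) : ℂ)) * ((muR (m + (h + N).toNat - N) : ℝ) : ℂ) := by
    rw [mul_sum]
    refine sum_congr rfl fun m hm => ?_
    rw [mem_Ioc] at hm
    have e2 : m + (h + N).toNat - N = ((m : ℤ) + h).toNat := by omega
    rw [e2]
    unfold muR
    push_cast
    have : ((t : ℝ) : ℂ) ≠ 0 := by exact_mod_cast ht0.ne'
    field_simp
  have e3 : ∑ n ∈ Ioc y₁ y₂, ‖F n * ((t⁻¹ : ℝ) : ℂ)‖ = t⁻¹ * ∑ n ∈ Ioc y₁ y₂, ‖F n‖ := by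
    rw [mul_sum]
    refine sum_congr rfl fun m _ => ?_
    rw [norm_mul, Complex.norm_real, Real.norm_eq_abs, abs_of_pos (by positivity), mul_comm]
  rw [e3] at h7
  rw [e1, norm_mul, Complex.norm_real, Real.norm_eq_abs, abs_of_pos ht0]
  have hS0 : 0 ≤ ∑ n ∈ Ioc y₁ y₂, ‖F n‖ := sum_nonneg fun _ _ => norm_nonneg _
  calc t * _ ≤ t * (min ε 1 * (t⁻¹ * ∑ n ∈ Ioc y₁ y₂, ‖F n‖) + N / Real.log N ^ (A + K)) :=
        mul_le_mul_of_nonneg_left h7 ht0.le
    _ = min ε 1 * ∑ n ∈ Ioc y₁ y₂, ‖F n‖ + N / Real.log N ^ A := by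
        rw [pow_add, ← ht]
        field_simp
    _ ≤ ε * ∑ n ∈ Ioc y₁ y₂, ‖F n‖ + N / Real.log N ^ A := by
        have := mul_le_mul_of_nonneg_right (min_le_left ε 1) hS0
        linarith

end Pool.Agent.Results.MP_0bfb7f_nt.ArbitraryWeightsAllClasses
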