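import Pool.Agent.Y885.KP1
import Pool.Agent.J4H77.MS.Basic

/-!
# The Möbius function and shifted primes, up to very few elements of an arbitrary set which meets every interval `[x, l x]`

Nothing is used besides Mathlib in the statement.

The proof uses the general theorem of the starting files on correlations with shifts which are corrected by elements of a
given set (`Pool.Agent.Y885.las_fine`: a random choice of the elements and the second moment method).
-/

set_option autoImplicit false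

namespace Pool.Agent.Results.MP_0bfb7f_nt.ElementsOfAnySets

open Finset

/-- The sum `∑ n ≤ X, θ n * (∏ i, Λ (a i * n + h i)) * μ (α * n + y)`. For `s = 1`, `θ = 1`, `a 0 = 1`, `h 0 = 0`, `α = 1` and
`y = 1` this is the sum `S (X + 1)` of the problem. -/
noncomputable def corr {s : ℕ} (θ : ℕ → ℂ) (a h : Fin s → ℕ) (α y X : ℕ) : ℂ :=
  ∑ n ∈ Icc 1 X, θ n * (∏ i, (ArithmeticFunction.vonMangoldt (a i * n + h i) : ℂ)) *
    ((ArithmeticFunction.moebius (α * n + y) : ℤ) : ℂ)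

/-- For all `l ≥ 2`, `P ≥ 1`, `s`, `T` and `U` there is a constant `C` such that for all `H` and `B` there is an `N₀` with the
following property. Let `A` be an arbitrary set of integers which contains an element of every interval `[x, l x]`, `x ≥ 1`
(`C` and `N₀` do not depend on `A`), let `N ≥ N₀`, and let `0 ≤ y ≤ B N` be an arbitrary integer. For each of at most
`log ^ T N` indices `i` let `α i ≥ 1`, let `a i j n + h i j`, `j < s`, be linear forms with coefficients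
`0 ≤ a i j, h i j ≤ N ^ B`, and let `θ i : ℕ → ℂ` be an arbitrary function bounded by `1`. Then there is a set `S` of at most
`C (log log N) ^ 2` elements of `A`, all between `log ^ H N` and `N / log ^ H N`, with a sum divisible by `P`, such that the
shift `z`, the sum of `y` and of the elements of `S`, satisfies
`|∑ n ≤ X, θ i n * (∏ j, Λ (a i j n + h i j)) * μ (α i n + z)| ≤ N / log ^ U N` for all the indices `i` and all `X` with
`α i X ≤ B N`. -/
theorem result (l P s T U : ℕ) (hl : 2 ≤ l) (hP : 1 ≤ P) : ∃ C : ℝ, ∀ H B : ℕ, ∃ N₀ : ℕ, ∀ N : ℕ, N₀ ≤ N →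
    ∀ A : Set ℕ, (∀ x : ℕ, 1 ≤ x → ∃ a ∈ A, x ≤ a ∧ a ≤ l * x) → ∀ y : ℕ, y ≤ B * N →
    ∀ L : ℕ, (L : ℝ) ≤ Real.log N ^ T → ∀ (α : Fin L → ℕ) (a h : Fin L → Fin s → ℕ) (θ : Fin L → ℕ → ℂ),
    (∀ i, 1 ≤ α i) → (∀ i j, a i j ≤ N ^ B ∧ h i j ≤ N ^ B) → (∀ i n, ‖θ i n‖ ≤ 1) →
    ∃ S : Finset ℕ, (∀ a ∈ S, a ∈ A ∧ Real.log N ^ H ≤ a ∧ (a : ℝ) ≤ N / Real.log N ^ H) ∧
      (S.card : ℝ) ≤ C * Real.log (Real.log N) ^ 2 ∧ P ∣ ∑ a ∈ S, a ∧
      ∀ i, ∀ X : ℕ, α i * X ≤ B * N → ‖corr (θ i) (a i) (h i) (α i) (y + ∑ a ∈ S, a) X‖ ≤ N / Real.log N ^ U := by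
  obtain ⟨C, hC⟩ := Pool.Agent.Y885.las_fine l P (T + 2 * s) U hl hP Pool.Agent.H373R2.T7.muR Pool.Agent.Y885.fine_mu
  refine ⟨C, fun H B => ?_⟩
  obtain ⟨N₀, h0⟩ := hC H B
  obtain ⟨N₁, h1⟩ := Pool.Agent.J4H77.MS.vm_prod B s
  refine ⟨N₀ + N₁ + 3, fun N hN A hA y hy L hL α a h θ hα hah hθ => ?_⟩
  have hLog1 : 1 ≤ Real.log (N : ℝ) := by
    have h3 : (3 : ℝ) ≤ N := by exact_mod_cast (by omega : 3 ≤ N)
    rw [Real.le_log_iff_exp_le (by linarith)]
    exact (Real.exp_one_lt_d9.le.trans (by norm_num)).trans h3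
  obtain ⟨S, g1, g2, g3, g4⟩ := h0 A hA N (by omega) y hy L (hL.trans (pow_le_pow_right₀ hLog1 (by omega))) α
    (fun i n => θ i n * ∏ j, (ArithmeticFunction.vonMangoldt (a i j * n + h i j) : ℂ)) hα (by
      intro i n _ hn
      have hnB : n ≤ B * N := (Nat.le_mul_of_pos_left n (by have := hα i; omega)).trans hn
      exact (h1 N (by omega) (a i) (h i) (hah i) n hnB (θ i n) (hθ i n)).trans (pow_le_pow_right₀ hLog1 (by omega)))
  refine ⟨S, g1, g2, g3, fun i X hX => ?_⟩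
  refine le_trans (le_of_eq ?_) (g4 i X hX)
  congr 1

end Pool.Agent.Results.MP_0bfb7f_nt.ElementsOfAnySets
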