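import Mathlib
import Pool.Agent.J4H29.O14

/-!
# The sign of `μ(p + k)` along primes: a dichotomy

For a nonzero shift `k` (in the problem `k = 1`, `n = p + 1`), a sign `s` and at least five squarefree
coefficients `a` with one value of `μ`: either primes `p` with `p + k = a n`, `n` free of small prime
factors and `μ(p + k) = s` are plentiful, or pairs of primes `a n - k`, `b n - k` are.
-/

set_option autoImplicit false

open Finset Filter

namespace Pool.Agent.Results.MP_0bfb7f_nt.MobiusSignDichotomy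

/-- `m` is a product of distinct primes, all larger than `y` -/
def RoughSquarefree (y : ℝ) (m : ℕ) : Prop :=
  Squarefree m ∧ ∀ q : ℕ, q.Prime → q ∣ m → y < q

/-- for every `l` there are, beyond every bound, arithmetic progressions of length `l`, with difference at
most a fixed power of the logarithm of the first term, contained in `S` -/
def NarrowProgressions (S : Set ℕ) : Prop := ∀ l : ℕ, ∃ B : ℕ, ∀ x₀ : ℕ, ∃ a d : ℕ, x₀ ≤ a ∧ 1 ≤ d ∧
  (d : ℝ) ≤ Real.log a ^ B ∧ ∀ i < l, a + i * d ∈ S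

/-- coefficients allowed for the shift `k`: at least five squarefree positive integers prime to `k`, with the
same value of the Möbius function, missing some class prime to `p` modulo every prime `p` not dividing `k` -/
def Coefficients (k : ℤ) (S : Finset ℕ) : Prop :=
  5 ≤ S.card ∧ (∀ a ∈ S, 1 ≤ a ∧ Squarefree a ∧ IsCoprime (a : ℤ) k) ∧
    (∀ a ∈ S, ∀ b ∈ S, ArithmeticFunction.moebius a = ArithmeticFunction.moebius b) ∧
    ∀ p : ℕ, p.Prime → ¬ (p : ℤ) ∣ k → ∃ c : ℕ, ¬ p ∣ c ∧ ∀ a ∈ S, ¬ a ≡ c [MOD p]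

lemma coeff_one : Coefficients 1 {6, 14, 26, 38, 74} := by
  have hp37 : Nat.Prime 37 := by norm_num
  have hp19 : Nat.Prime 19 := by norm_num
  have hp13 : Nat.Prime 13 := by norm_num
  have hp7 : Nat.Prime 7 := by norm_num
  have key : ∀ q : ℕ, q.Prime → q ≠ 2 → Squarefree (2 * q) ∧ ArithmeticFunction.moebius (2 * q) = 1 := by
    intro q hq hq2
    have hc : Nat.Coprime 2 q := (Nat.coprime_primes Nat.prime_two hq).2 (fun h => hq2 h.symm)
    refine ⟨(Nat.squarefree_mul hc).2 ⟨Nat.prime_two.prime.squarefree, hq.prime.squarefree⟩, ?_⟩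
    rw [ArithmeticFunction.isMultiplicative_moebius.map_mul_of_coprime hc,
      ArithmeticFunction.moebius_apply_prime Nat.prime_two, ArithmeticFunction.moebius_apply_prime hq]
    norm_num
  have h6 := key 3 Nat.prime_three (by norm_num)
  have h14 := key 7 hp7 (by norm_num)
  have h26 := key 13 hp13 (by norm_num)
  have h38 := key 19 hp19 (by norm_num)
  have h74 := key 37 hp37 (by norm_num)
  norm_num at h6 h14 h26 h38 h74
  have hall : ∀ a ∈ ({6, 14, 26, 38, 74} : Finset ℕ), 1 ≤ a ∧ Squarefree a ∧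
      ArithmeticFunction.moebius a = 1 := by
    intro a ha
    simp only [Finset.mem_insert, Finset.mem_singleton] at ha
    rcases ha with rfl | rfl | rfl | rfl | rfl
    · exact ⟨by norm_num, h6⟩
    · exact ⟨by norm_num, h14⟩
    · exact ⟨by norm_num, h26⟩
    · exact ⟨by norm_num, h38⟩
    · exact ⟨by norm_num, h74⟩
  refine ⟨by decide, fun a ha => ⟨(hall a ha).1, (hall a ha).2.1, isCoprime_one_right⟩,
    fun a ha b hb => by rw [(hall a ha).2.2, (hall b hb).2.2], ?_⟩
  intro p hp _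
  by_cases h7 : 7 ≤ p
  · -- six nonzero classes, five elements
    by_contra hcon
    push Not at hcon
    have hsub : ∀ c ∈ Finset.Icc 1 6, c ∈ ({6, 14, 26, 38, 74} : Finset ℕ).image (fun a => a % p) := by
      intro c hc
      rw [Finset.mem_Icc] at hc
      obtain ⟨a, ha, hac⟩ := hcon c (fun h => by have := Nat.le_of_dvd (by omega) h; omega)
      refine Finset.mem_image.2 ⟨a, ha, ?_⟩
      have h : a % p = c % p := hac
      rw [Nat.mod_eq_of_lt (show c < p by omega)] at h
      exact h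
    have h1 := Finset.card_le_card (show Finset.Icc 1 6 ⊆ _ from hsub)
    have h2 := Finset.card_image_le (s := ({6, 14, 26, 38, 74} : Finset ℕ)) (f := fun a => a % p)
    have h3 : (Finset.Icc 1 6).card = 6 := by decide
    have h4 : ({6, 14, 26, 38, 74} : Finset ℕ).card = 5 := by decide
    omega
  · have hp2 : p = 2 ∨ p = 3 ∨ p = 5 := by
      have : p < 7 := by omega
      interval_cases p <;> first | omega | (exfalso; revert hp; decide)
    rcases hp2 with rfl | rfl | rfl
    · exact ⟨1, by decide, by decide⟩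
    · exact ⟨1, by decide, by decide⟩
    · exact ⟨2, by decide, by decide⟩

theorem result : Coefficients 1 {6, 14, 26, 38, 74} ∧ ∃ κ : ℝ, 0 < κ ∧ ∀ (k s : ℤ) (S : Finset ℕ), k ≠ 0 → (s = 1 ∨ s = -1) →
    Coefficients k S →
    (∃ c : ℝ, 0 < c ∧ ∀ᶠ X : ℝ in atTop, c * X / Real.log X ^ 6 ≤
      ({n : ℕ | (n : ℝ) ≤ X ∧ RoughSquarefree (X ^ κ) n ∧
        ∃ a ∈ S, ∃ p : ℕ, p.Prime ∧ (p : ℤ) + k = a * n ∧
          (ArithmeticFunction.moebius (a * n) = s ∨
            ∃ b ∈ S, b ≠ a ∧ ∃ q : ℕ, q.Prime ∧ (q : ℤ) + k = b * n)}.ncard : ℝ)) ∧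
    ((∃ a ∈ S, NarrowProgressions {p : ℕ | p.Prime ∧ ∃ n : ℕ, (p : ℤ) + k = a * n ∧
        RoughSquarefree ((p : ℝ) ^ κ) n ∧ ArithmeticFunction.moebius (a * n) = s}) ∨
      ∃ a ∈ S, ∃ b ∈ S, a < b ∧ NarrowProgressions {n : ℕ | RoughSquarefree ((n : ℝ) ^ κ) n ∧
        ∃ p q : ℕ, p.Prime ∧ q.Prime ∧ (p : ℤ) + k = a * n ∧ (q : ℤ) + k = b * n}) := by
  obtain ⟨κ, hκ, h⟩ := Pool.Agent.J4H29.mu_shift
  exact ⟨coeff_one, κ, hκ, fun k s S hk hs hS => h k s S hk hs hS.1 hS.2.1 hS.2.2.1 hS.2.2.2⟩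

end Pool.Agent.Results.MP_0bfb7f_nt.MobiusSignDichotomy
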