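import Pool.Agent.Y885.MU6
import Pool.Agent.J4H77.MS.Basic

/-!
# The Möbius function and shifted primes, for shifts which are sums of independent random integers at the scales of a rich set

Nothing is used besides Mathlib in the statement.

The proof uses the general theorem of the starting files on correlations with random shifts (`Pool.Agent.Y885.rs_fine`).
-/

set_option autoImplicit false

namespace Pool.Agent.Results.MP_0bfb7f_nt.RandomSumShifts

open Finset

/-- The Möbius function on the integers, `0` at the integers `m ≤ 0`, with complex values. -/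
noncomputable def mob (m : ℤ) : ℂ := ((ArithmeticFunction.moebius m.toNat : ℤ) : ℂ)

/-- The set `J` of scales below `k` is rich: it contains more than three fifths of all the scales, more than one half
of the `m` lowest scales, and a positive proportion of the `m` highest scales (the last two conditions are
void for `m ≤ D log k`). -/
structure Rich (δ : ℝ) (D k : ℕ) (J : Finset ℕ) : Prop where
  lt : ∀ j ∈ J, j < k
  all : (3 / 5 + δ) * k ≤ (J.card : ℝ)
  low : ∀ m ≤ k, (1 / 2 + δ) * m ≤ ((J.filter fun j => j < m).card : ℝ) + D * Real.log k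
  high : ∀ m ≤ k, δ * m ≤ ((J.filter fun j => k - m ≤ j).card : ℝ) + D * Real.log k

open Classical in
/-- The probability of the event `E` if `x 0, ..., x (k - 1)` are independent random integers, where `x j` takes
its values in the finite set `s j`, and the value `v` with the probability `p j v`. -/
noncomputable def Prob (k : ℕ) (s : ℕ → Finset ℤ) (p : ℕ → ℤ → ℝ) (E : (Fin k → ℤ) → Prop) : ℝ :=
  ∑ x ∈ Fintype.piFinset (fun j : Fin k => s j), if E x then ∏ j : Fin k, p j (x j) else 0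

/-- The sum `∑ n ≤ X, θ n * (∏ i, Λ (a i * n + h i)) * μ (α * n + y)`. For `r = 1`, `θ = 1`, `a 0 = 1`, `h 0 = 0`, `α = 1` and
`y = 1` this is the sum `S (X + 1)` of the problem. -/
noncomputable def corr {r : ℕ} (θ : ℕ → ℂ) (a h : Fin r → ℕ) (α : ℕ) (y : ℤ) (X : ℕ) : ℂ :=
  ∑ n ∈ Icc 1 X, θ n * (∏ i, (ArithmeticFunction.vonMangoldt (a i * n + h i) : ℂ)) * mob (α * n + y)

/-- Let `b ≥ 2`, `B ≥ 1`, `D`, `r`, `T`, `U`, `η > 0` and `δ > 0` be fixed, let `k` be large, and let `J` be an arbitrary rich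
set of scales below `k`. Let `x 0, ..., x (k - 1)` be arbitrary independent random integers with `|x j| ≤ B b ^ j`
such that, for all `j` in `J`, no interval of the length `b ^ j / B` contains `x j` with a probability larger than
`1 - η` (nothing is assumed for the other `j`: these `x j` may be constants). Let `c` be an arbitrary integer with
`|c| ≤ B b ^ k`. For each of at most `k ^ T` indices `l` let `α l ≥ 1`, let `a l i n + h l i`, `i < r`, be linear forms with
coefficients `0 ≤ a l i, h l i ≤ b ^ (B k)`, and let `θ l : ℕ → ℂ` be an arbitrary function bounded by `1`. Then, with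
a probability of at least `1 - 1 / k ^ U`, the shift `y = c + x 0 + ... + x (k - 1)` satisfies
`|∑ n ≤ X, θ l n * (∏ i, Λ (a l i n + h l i)) * μ (α l n + y)| ≤ b ^ k / k ^ U` for all `l` and all `X ≤ B b ^ k / α l`. -/
theorem result (b B D r T U : ℕ) (hb : 2 ≤ b) (hB : 1 ≤ B) (η δ : ℝ) (hη : 0 < η) (hδ : 0 < δ) :
    ∃ k₀ : ℕ, ∀ k : ℕ, k₀ ≤ k → ∀ J : Finset ℕ, Rich δ D k J →
      ∀ (s : ℕ → Finset ℤ) (p : ℕ → ℤ → ℝ),
      (∀ j < k, (∀ x ∈ s j, 0 ≤ p j x ∧ |x| ≤ (B : ℤ) * (b : ℤ) ^ j) ∧ ∑ x ∈ s j, p j x = 1) →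
      (∀ j ∈ J, ∀ y : ℤ, ∑ x ∈ (s j).filter (fun x => y ≤ x ∧ (B : ℤ) * (x - y) ≤ (b : ℤ) ^ j), p j x ≤ 1 - η) →
      ∀ c : ℤ, |c| ≤ (B : ℤ) * (b : ℤ) ^ k →
      ∀ L : ℕ, L ≤ k ^ T → ∀ (α : Fin L → ℕ) (a h : Fin L → Fin r → ℕ) (θ : Fin L → ℕ → ℂ), (∀ l, 1 ≤ α l) →
      (∀ l i, a l i ≤ b ^ (B * k) ∧ h l i ≤ b ^ (B * k)) → (∀ l n, ‖θ l n‖ ≤ 1) →
        Prob k s p (fun x => ¬ ∀ l, ∀ X : ℕ, α l * X ≤ B * b ^ k →
          ‖corr (θ l) (a l) (h l) (α l) (c + ∑ j, x j) X‖ ≤ (b : ℝ) ^ k / (k : ℝ) ^ U) ≤ 1 / (k : ℝ) ^ U := by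
  classical
  obtain ⟨k₀, h0⟩ := Pool.Agent.Y885.rs_fine b B D (T + 4 * r) U hb hB η δ hη hδ Pool.Agent.H373R2.T7.muR
    Pool.Agent.Y885.fine_mu
  obtain ⟨N₁, h1⟩ := Pool.Agent.J4H77.MS.vm_prod B r
  refine ⟨k₀ + N₁ + b + 1, fun k hk J hJ s p hs hp c hc L hL α a h θ hα hah hθ => ?_⟩
  have hk1 : (1 : ℝ) ≤ k := by exact_mod_cast (by omega : 1 ≤ k)
  have hbk : k < b ^ k := Nat.lt_pow_self (by omega)
  have hb1 : (1 : ℝ) ≤ b := by exact_mod_cast (by omega : 1 ≤ b)
  -- the logarithm of `b ^ k`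
  have hlog : Real.log ((b ^ k : ℕ) : ℝ) ≤ (k : ℝ) ^ 2 := by
    rw [Nat.cast_pow, Real.log_pow, pow_two]
    apply mul_le_mul_of_nonneg_left _ (by linarith)
    have h2 : Real.log b ≤ b := by
      have := Real.log_le_sub_one_of_pos (by linarith : (0 : ℝ) < b)
      linarith
    exact h2.trans (by exact_mod_cast (by omega : b ≤ k))
  have hlog0 : 0 ≤ Real.log ((b ^ k : ℕ) : ℝ) := Real.log_natCast_nonneg _
  have h5 := h0 k (by omega) J s p c ⟨hJ.lt, hJ.low, hJ.high, hJ.all⟩ hs hp hc L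
    (hL.trans (Nat.pow_le_pow_right (by omega) (by omega))) α
    (fun l n => θ l n * ∏ i, (ArithmeticFunction.vonMangoldt (a l i * n + h l i) : ℂ)) hα
    (fun l n _ hn => by
      have hnB : n ≤ B * b ^ k := (Nat.le_mul_of_pos_left n (by have := hα l; omega)).trans hn
      have h6 := h1 (b ^ k) (by omega) (a l) (h l) (fun i => by
        rw [← pow_mul, mul_comm k B]
        exact hah l i) n hnB (θ l n) (hθ l n)
      refine h6.trans ?_
      calc Real.log ((b ^ k : ℕ) : ℝ) ^ (2 * r) ≤ ((k : ℝ) ^ 2) ^ (2 * r) := pow_le_pow_left₀ hlog0 hlog _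
        _ = (k : ℝ) ^ (4 * r) := by rw [← pow_mul]; congr 1; ring
        _ ≤ (k : ℝ) ^ (T + 4 * r) := pow_le_pow_right₀ hk1 (by omega))
    (fun x => ¬ ∀ l, ∀ X : ℕ, α l * X ≤ B * b ^ k →
          ‖corr (θ l) (a l) (h l) (α l) (c + ∑ j, x j) X‖ ≤ (b : ℝ) ^ k / (k : ℝ) ^ U) (Classical.decPred _)
    (fun x hx hcon => hx fun l X hX => by
      have h2 := hcon l X hX
      refine le_trans (le_of_eq ?_) h2
      congr 1
      unfold corr
      apply sum_congr rfl
      intro n _
      congr 1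
      unfold Pool.Agent.H373R2.T7.exI mob
      rw [Nat.cast_mul]
      split_ifs with h3
      · simp only
        rw [← Pool.Agent.H373R2.T7.muC_eq]
        rfl
      · rw [Int.toNat_of_nonpos (by omega)]
        simp)
  refine le_trans (le_of_eq ?_) h5
  unfold Prob
  apply sum_congr rfl
  intro x _
  split_ifs <;> rfl

end Pool.Agent.Results.MP_0bfb7f_nt.RandomSumShifts
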